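import Pool.Agent.Helper92.LV.Stmts2
import Pool.Agent.Helper33.LK.KGL
import Pool.Agent.Helper33.LK.KCH
import Pool.Agent.Helper99.LK.KPL

set_option autoImplicit false

/-! PTOR: translation by a torsion point does not change the canonical height. -/

open Filter Topology NumberField

namespace Pool.Agent.Helper92.LV

open Pool.Agent.Helper42.LS Pool.Agent.Helper42.LK Pool.Agent.Helper54.LM

/-- the heights of the multiples of a torsion point -/
theorem ptor_tors {K : Type} [Field K] [NumberField K] [DecidableEq K] {A B : K}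
    (Q : (ECK A B).toAffine.Point) (M : ℕ) (hM : 0 < M) (hQ : M • Q = 0) :
    Tendsto (fun n : ℕ => hxK (2 ^ n • Q) / 4 ^ n) atTop (𝓝 0) := by
  have hmod : ∀ k : ℕ, k • Q = (k % M) • Q := by
    intro k
    conv_lhs => rw [← Nat.mod_add_div k M]
    rw [add_nsmul, mul_nsmul, hQ, nsmul_zero, add_zero]
  set C : ℝ := ∑ j ∈ Finset.range M, |hxK (j • Q)| with hC
  have hbound : ∀ k : ℕ, |hxK (k • Q)| ≤ C := by
    intro k
    rw [hmod k, hC]
    exact Finset.single_le_sum (f := fun j => |hxK (j • Q)|) (fun _ _ => abs_nonneg _)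
      (Finset.mem_range.2 (Nat.mod_lt _ hM))
  have h4 : Tendsto (fun n : ℕ => C * ((1 / 4 : ℝ) ^ n)) atTop (𝓝 0) := by
    have := (tendsto_pow_atTop_nhds_zero_of_lt_one (r := (1 / 4 : ℝ)) (by norm_num)
      (by norm_num)).const_mul C
    rw [mul_zero] at this
    exact this
  refine squeeze_zero_norm (fun n => ?_) h4
  rw [Real.norm_eq_abs, abs_div, abs_of_pos (by positivity : (0 : ℝ) < 4 ^ n), div_eq_mul_inv,
    one_div, inv_pow]
  exact mul_le_mul_of_nonneg_right (hbound _) (by positivity)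

theorem ptor_seq {K : Type} [Field K] [NumberField K] [DecidableEq K] (A B : K)
    (hD : 4 * A ^ 3 + 27 * B ^ 2 ≠ 0)
    (P : (ECK A B).toAffine.Point) (hP : ∀ n : ℕ, 0 < n → n • P ≠ 0) :
    ∃ (x y : ℕ → K) (e : ℝ), IsCanK x e ∧
      (∀ k : ℕ, 1 ≤ k → ∃ h, k • P = WeierstrassCurve.Affine.Point.some (x k) (y k) h) ∧
      Tendsto (fun n : ℕ => hxK (2 ^ n • P) / 4 ^ n) atTop (𝓝 e) := by
  obtain ⟨x, y, hg, hxy⟩ := st_KGL K A B P hP
  obtain ⟨C, hC⟩ := st_KCH st_KPL K A B hD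
  obtain ⟨e, he, -⟩ := hC x y hg
  refine ⟨x, y, e, he, hxy, ?_⟩
  have h1 := he 1 le_rfl
  simp only [one_mul, Nat.cast_one, one_pow] at h1
  refine h1.congr (fun n => ?_)
  obtain ⟨h, hh⟩ := hxy (2 ^ n) (Nat.one_le_two_pow)
  rw [hh]
  rfl

theorem st_PTOR : ST_PTOR := by
  intro K _ _ _ A B hD R T e hT hlim
  obtain ⟨N, hN, hNT⟩ := hT
  by_cases hR : ∃ n : ℕ, 0 < n ∧ n • R = 0
  · obtain ⟨n, hn, hnR⟩ := hR
    have he : e = 0 := tendsto_nhds_unique hlim (ptor_tors R n hn hnR)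
    rw [he]
    refine ptor_tors (R + T) (n * N) (Nat.mul_pos hn hN) ?_
    rw [nsmul_add, mul_nsmul, hnR, nsmul_zero, zero_add, mul_comm, mul_nsmul, hNT, nsmul_zero]
  · push Not at hR
    have hRT : ∀ n : ℕ, 0 < n → n • (R + T) ≠ 0 := by
      intro n hn h0
      have h1 : (n * N) • (R + T) = 0 := by rw [mul_nsmul, h0, nsmul_zero]
      rw [nsmul_add] at h1
      have h2 : (n * N) • T = 0 := by rw [mul_comm, mul_nsmul, hNT, nsmul_zero]
      rw [h2, add_zero] at h1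
      exact hR (n * N) (Nat.mul_pos hn hN) h1
    obtain ⟨x, y, e0, hx, hxy, hl0⟩ := ptor_seq A B hD R hR
    obtain ⟨x1, y1, e1, hx1, hxy1, hl1⟩ := ptor_seq A B hD (R + T) hRT
    have he : e = e0 := tendsto_nhds_unique hlim hl0
    have h1 := hx N hN
    have h2 := hx1 N hN
    have hcongr : ∀ n : ℕ, x1 (N * 2 ^ n) = x (N * 2 ^ n) := by
      intro n
      have hpos : 1 ≤ N * 2 ^ n := Nat.mul_pos hN (by positivity)
      obtain ⟨h, hh⟩ := hxy (N * 2 ^ n) hpos
      obtain ⟨h', hh'⟩ := hxy1 (N * 2 ^ n) hpos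
      have h3 : (N * 2 ^ n) • (R + T) = (N * 2 ^ n) • R := by
        rw [nsmul_add, mul_nsmul T, hNT, nsmul_zero, add_zero]
      rw [hh, hh'] at h3
      injection h3
    have h3 : Tendsto (fun n : ℕ => Height.logHeight₁ (x1 (N * 2 ^ n)) / 4 ^ n) atTop
        (𝓝 ((N : ℝ) ^ 2 * e0)) := by
      refine h1.congr (fun n => ?_)
      rw [hcongr n]
    have h4 := tendsto_nhds_unique h2 h3
    have hN2 : ((N : ℝ) ^ 2) ≠ 0 := by
      have : (N : ℝ) ≠ 0 := by exact_mod_cast hN.ne'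
      positivity
    have h5 : e1 = e0 := mul_left_cancel₀ hN2 h4
    rw [he, ← h5]
    exact hl1

end Pool.Agent.Helper92.LV
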